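import Pool.Agent.Y657.GT.PLC0
import Pool.Agent.Y157.PS.All

/-!
# Places of p-adic type
-/

set_option autoImplicit false

namespace Pool.Agent.Y657.GT

open Pool.Agent.Y157.PS Pool.Agent.Y157.GT

theorem uni (hDVRP : S_DVRP) : S_UNI := uni0 a_ndisc a_gex a_gun a_g2 hDVRP

theorem plc (hDVRP : S_DVRP) (hWGTG : S_WGTG) (hUNI : S_UNI) : S_PLC :=
  plc0 a_ndisc a_gex hDVRP hWGTG hUNI

end Pool.Agent.Y657.GT
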