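import Pool.Agent.Y157.GT.Stm
import Pool.Agent.Y157.PS.Tools

/-!
# Places of p-adic type: the part which does not depend on the finished project
-/

set_option autoImplicit false
set_option linter.all false

open Polynomial FF

namespace Pool.Agent.Y657.GT

open Pool.Agent.Y157.PS Pool.Agent.Y157.GT

section

variable {p : ℕ} [Fact p.Prime] {C : Type} [Field C] [Algebra ℚ_[p] C] {VC : ValuationSubring C}

/-- norms and the valuation ring -/
lemma padic_isU (h : PadicV p C VC) {z : ℚ_[p]} (hz : ‖z‖ = 1) :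
    IsU VC (algebraMap ℚ_[p] C z) := by
  have h0 : z ≠ 0 := by
    intro h0
    rw [h0, norm_zero] at hz
    exact zero_ne_one hz
  refine ⟨(_root_.map_ne_zero _).2 h0, (h.norm z).2 hz.le, ?_⟩
  rw [← map_inv₀]
  exact (h.norm _).2 (by rw [norm_inv, hz, inv_one])

lemma padic_non (h : PadicV p C VC) {z : ℚ_[p]} (hz : ‖z‖ < 1) :
    algebraMap ℚ_[p] C z ∈ VC.nonunits := by
  rw [nonunits_iff]
  refine ⟨(h.norm z).2 hz.le, ?_⟩
  by_cases h0 : z = 0
  · left
    rw [h0, map_zero]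
  · right
    rw [← map_inv₀, h.norm, norm_inv, not_le]
    exact (one_lt_inv₀ (norm_pos_iff.2 h0)).2 hz

lemma norm_l {ℓ : ℕ} [Fact ℓ.Prime] (hne : ℓ ≠ p) : ‖(ℓ : ℚ_[p])‖ = 1 := by
  rw [Padic.norm_natCast_eq_one_iff]
  exact (Nat.coprime_primes Fact.out Fact.out).2 hne.symm

end

section

variable {κ C : Type} [Field κ] [Field C] {VC : ValuationSubring C} (j : κ →+* C)

lemma comap_isU {z : κ} : IsU (VC.comap j) z ↔ IsU VC (j z) := by
  unfold IsU
  rw [ValuationSubring.mem_comap, ValuationSubring.mem_comap, map_inv₀, ne_eq, ne_eq,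
    map_eq_zero]

lemma comap_non {z : κ} : z ∈ (VC.comap j).nonunits ↔ j z ∈ VC.nonunits := by
  rw [nonunits_iff, nonunits_iff, ValuationSubring.mem_comap, ValuationSubring.mem_comap,
    map_inv₀, map_eq_zero]

end

/-- the data of a place of p-adic type -/
lemma data {ℓ p : ℕ} [Fact ℓ.Prime] [Fact p.Prime] (hne : ℓ ≠ p) {k κ C : Type} [Field k]
    [Field κ] [Algebra k κ] [CharZero k] [Field C] [Algebra ℚ_[p] C]
    {VC : ValuationSubring C} (hVC : PadicV p C VC) (q : k →+* ℚ_[p]) (j : κ →+* C)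
    (hj : ∀ c, j (algebraMap k κ c) = algebraMap ℚ_[p] C (q c)) {A : ValuationSubring k}
    (hA : ∀ z : k, z ∈ A ↔ ‖q z‖ ≤ 1)
    (hAm : ∀ a : A, a ∈ IsLocalRing.maximalIdeal A ↔ ‖q a‖ < 1) :
    (∀ a : A, algebraMap k κ (a : k) ∈ VC.comap j) ∧
      (∀ a ∈ IsLocalRing.maximalIdeal A, algebraMap k κ (a : k) ∈ (VC.comap j).nonunits) ∧
      IsUnit (ℓ : A) ∧ IsU (VC.comap j) (ℓ : κ) := by
  refine ⟨fun a => ?_, fun a ha => ?_, ?_, ?_⟩
  · rw [ValuationSubring.mem_comap, hj]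
    exact (hVC.norm _).2 ((hA _).1 a.2)
  · rw [comap_non, hj]
    exact padic_non hVC ((hAm a).1 ha)
  · by_contra hu
    have h1 : (ℓ : A) ∈ IsLocalRing.maximalIdeal A := (IsLocalRing.mem_maximalIdeal _).2 hu
    rw [hAm] at h1
    have h2 : q (((ℓ : A) : A) : k) = (ℓ : ℚ_[p]) := by
      have : (((ℓ : A) : A) : k) = (ℓ : k) := by
        exact map_natCast A.subtype ℓ
      rw [this, map_natCast]
    rw [h2, norm_l hne] at h1
    exact lt_irrefl _ h1
  · rw [comap_isU, map_natCast]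
    have := padic_isU hVC (norm_l (p := p) hne)
    rwa [map_natCast] at this

/-- existence of a Gauss valuation ring of `M`, with the disc -/
lemma hasrot (hND : S_NDISC) (hGEX : S_GEX) {ℓ : ℕ} [Fact ℓ.Prime]
    {k κ R M : Type} [Field k] [Field κ] [Algebra k κ] [CharZero k] [IsAlgClosure k κ]
    [Field R] [Field M] [Algebra κ R] [Algebra R M] [Algebra κ M] [IsScalarTower κ R M]
    (V : ValuationSubring κ) (A : ValuationSubring k) [IsDiscreteValuationRing A]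
    [Finite (IsLocalRing.ResidueField A)]
    (h1 : ∀ a : A, algebraMap k κ (a : k) ∈ V)
    (h2 : ∀ a ∈ IsLocalRing.maximalIdeal A, algebraMap k κ (a : k) ∈ V.nonunits)
    (h3 : IsUnit (ℓ : A))
    (x : R) (B : Finset κ) (Y : M) (hC : Cov ℓ κ R M x B Y) (hG : Good V B) :
    ∃ (F : Type) (_ : Field F) (r : V →+* F), Res V r ∧ Nonempty (Disc ℓ V r) ∧
      HasRot κ R M x B Y V := by
  letI : Algebra A κ := ((algebraMap k κ).comp (algebraMap A k)).toAlgebra
  haveI : IsScalarTower A k κ := IsScalarTower.of_algebraMap_eq fun _ => rfl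
  haveI : IsAlgClosed κ := IsAlgClosure.isAlgClosed k
  haveI : CharZero κ := charZero_of_injective_algebraMap (algebraMap k κ).injective
  obtain ⟨F, hF, r, hr, ⟨D⟩⟩ := hND A k κ V h1 h2 ℓ h3
  exact ⟨F, hF, r, hr, ⟨D⟩, hGEX ℓ κ R M x B Y hC F V r hr hG D⟩

theorem uni0 (hND : S_NDISC) (hGEX : S_GEX) (hGUN : S_GUN) (hG2 : S_G2) (hDVRP : S_DVRP) :
    S_UNI := by
  intro ℓ p _ _ hne k κ R M C _ _ _ _ _ _ _ _ _ _ _ _ _ VC hVC q j hj x B Y hC hG
  obtain ⟨A, hA, hAd, hAf, hAp, hAm⟩ := hDVRP p k q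
  haveI := hAd
  haveI := hAf
  obtain ⟨h1, h2, h3, h4⟩ := data (ℓ := ℓ) hne hVC q j hj hA hAm
  haveI : IsAlgClosed κ := IsAlgClosure.isAlgClosed k
  haveI : CharZero κ := charZero_of_injective_algebraMap (algebraMap k κ).injective
  obtain ⟨F, hF, r, hr, hD, hrot⟩ := hasrot hND hGEX (VC.comap j) A h1 h2 h3 x B Y hC hG
  refine ⟨fun O O' hO hO' => hGUN ℓ κ R M x B Y hC _ hrot O O' hO hO', fun O hO γ hγ => ?_⟩
  ext z
  obtain ⟨N, hzN, hN⟩ := hC.pow z
  exact (hG2 ℓ κ R M x B Y hC _ O hO).2 h4 N hN γ (fun w hw _ => hγ w hw) z hzN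

/-- restriction of an automorphism of `C` to `κ` -/
lemma restr {p : ℕ} [Fact p.Prime] {k κ C : Type} [Field k] [Field κ] [Algebra k κ]
    [IsAlgClosure k κ] [Field C] [Algebra ℚ_[p] C] (q : k →+* ℚ_[p]) (j : κ →+* C)
    (hj : ∀ c, j (algebraMap k κ c) = algebraMap ℚ_[p] C (q c)) (τ : C ≃ₐ[ℚ_[p]] C) :
    ∃ σ : κ ≃ₐ[k] κ, ∀ z, j (σ z) = τ (j z) := by
  letI : Algebra κ C := j.toAlgebra
  letI : Algebra k C := (j.comp (algebraMap k κ)).toAlgebra
  haveI : IsScalarTower k κ C := IsScalarTower.of_algebraMap_eq fun _ => rfl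
  haveI : Normal k κ := IsAlgClosure.normal k κ
  let χ : C ≃ₐ[k] C := AlgEquiv.ofRingEquiv (f := (τ : C ≃+* C)) (fun c => by
    show τ (j (algebraMap k κ c)) = j (algebraMap k κ c)
    rw [hj, τ.commutes])
  refine ⟨χ.restrictNormal κ, fun z => ?_⟩
  exact AlgEquiv.restrictNormal_commutes χ κ z

theorem plc0 (hND : S_NDISC) (hGEX : S_GEX) (hDVRP : S_DVRP) (hWGTG : S_WGTG) (hUNI : S_UNI) :
    S_PLC := by
  intro ℓ p _ _ hne k κ R M C _ _ _ _ _ _ _ _ _ _ _ _ _ VC hVC q j hj x B Y hC hG s hs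
  obtain ⟨A, hA, hAd, hAf, hAp, hAm⟩ := hDVRP p k q
  haveI := hAd
  haveI := hAf
  obtain ⟨h1, h2, h3, h4⟩ := data (ℓ := ℓ) hne hVC q j hj hA hAm
  obtain ⟨F, hF, r, hr, ⟨D⟩, hrot⟩ := hasrot hND hGEX (VC.comap j) A h1 h2 h3 x B Y hC hG
  obtain ⟨e, he⟩ : B.Nonempty := by
    rw [← Finset.card_pos]
    have := hC.three
    omega
  obtain ⟨O, c, W, hO, -⟩ := hrot e he
  have hun : ∀ O' : ValuationSubring M, Gauss (VC.comap j) (algebraMap R M x) O' → O' = O :=
    fun O' hO' => (hUNI ℓ p hne k κ R M C VC hVC q j hj x B Y hC hG).1 O' O hO' hO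
  refine ⟨O, hO, fun τ hτ => ?_⟩
  obtain ⟨σ, hσ⟩ := restr q j hj τ
  refine ⟨σ, hσ, fun z hz => ?_⟩
  letI : Algebra A κ := ((algebraMap k κ).comp (algebraMap A k)).toAlgebra
  haveI : IsScalarTower A k κ := IsScalarTower.of_algebraMap_eq fun _ => rfl
  have hI : Ine (VC.comap j) σ := by
    constructor
    · intro z
      rw [ValuationSubring.mem_comap, ValuationSubring.mem_comap, hσ]
      exact hτ.1 _
    · intro z hz
      rw [comap_non, map_sub, hσ]
      exact hτ.2 _ (ValuationSubring.mem_comap.1 hz)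
  exact hWGTG ℓ A k κ R M (VC.comap j) h3 h1 h2 x B Y hC hG F r hr D s hs O hO hun σ hI z hz

end Pool.Agent.Y657.GT
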